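import Pool.Agent.H36.Fm

open Pool.Agent.H38.NP Pool.Agent.H36.Sig2 Pool.Agent.H36.Fm

theorem Pool.Agent.Results.MP_a1eae6_lc.Hard.result :
    Sigma2Hard (lang fun p : Fm × Fm => IsoImp p.1 p.2) :=
  hard.hard fun _ _ => Iff.rfl
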